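import Pool.Agent.H45.Swart

open MeasureTheory Filter Topology Set Pointwise Pool.Agent.H45.Swart

namespace Pool.Agent.Results.MP_2e2eba_pr.Chaos

/-- configurations (`true` is 1, `false` is 0) -/
abbrev X (d : ℕ) := (Fin d → ℤ) → Bool

/-- Bernoulli product measure with density `p` of ones -/
noncomputable def Bern (d : ℕ) (p : ℝ) : Measure (X d) :=
  Measure.infinitePi fun _ => ENNReal.ofReal p • Measure.dirac true + ENNReal.ofReal (1 - p) • Measure.dirac false

variable {d n : ℕ} (v : Fin n → Fin d → ℤ)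

/-- the percolation operator -/
noncomputable def P (θ : ℝ) (μ : Measure (X d)) : Measure (X d) :=
  (μ.prod (Bern d θ)).map fun z s => z.2 s || decide (∀ i, z.1 (s + v i) = true)

/-- the critical value `θ*` -/
noncomputable def crit : ℝ := sInf {θ ∈ Icc (0 : ℝ) 1 | ∀ f : C(X d, ℝ),
  Tendsto (fun t => ∫ y, f y ∂(P v θ)^[t] (Measure.dirac fun _ => false)) atTop (𝓝 (f fun _ => true))}

/-- the density map `F_{θ,T}` -/
noncomputable def F (θ : ℝ) (T : ℕ) (p : ℝ) : ℝ := ((P v θ)^[T] (Bern d p)).real {y | y 0 = true}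

/-- the critical point `θ*_T` of `chaos(P^T)` -/
noncomputable def critT (T : ℕ) : ℝ := sInf {θ ∈ Icc (0 : ℝ) 1 | Tendsto (fun k => (F v θ T)^[k] 0) atTop (𝓝 1)}

variable {θ : ℝ}

lemma pr (h : θ ∈ Icc (0 : ℝ) 1) :
    IsProbabilityMeasure (ENNReal.ofReal θ • Measure.dirac true + ENNReal.ofReal (1 - θ) • Measure.dirac false) :=
  ⟨by simp [← ENNReal.ofReal_add h.1 (sub_nonneg.2 h.2)]⟩

lemma prB (h : θ ∈ Icc (0 : ℝ) 1) : IsProbabilityMeasure (Bern d θ) := by
  have := pr h; unfold Bern; infer_instance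

lemma ms : Measurable fun (z : X d × X d) s => z.2 s || decide (∀ i, z.1 (s + v i) = true) :=
  measurable_pi_lambda _ fun s => (measurable_of_countable fun q : Bool × (Fin n → Bool) =>
    q.1 || decide (∀ i, q.2 i = true)).comp (f := fun z : X d × X d => (z.2 s, fun i => z.1 (s + v i))) (by fun_prop)

lemma prP (h : θ ∈ Icc (0 : ℝ) 1) (μ : Measure (X d)) [IsProbabilityMeasure μ] (t : ℕ) :
    IsProbabilityMeasure ((P v θ)^[t] μ) := by
  have := prB (d := d) h
  induction t with
  | zero => assumption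
  | succ t ih => rw [Function.iterate_succ_apply']; exact Measure.isProbabilityMeasure_map (ms v).aemeasurable

def cyl (A : Finset (Fin d → ℤ)) : Set (X d) := Set.pi A fun _ => {true}

lemma mc (A : Finset (Fin d → ℤ)) : MeasurableSet (cyl A) := .pi A.countable_toSet fun _ _ => trivial

lemma pat (h : θ ∈ Icc (0 : ℝ) 1) {A B : Finset (Fin d → ℤ)} (e : B ⊆ A) :
    (Bern d θ).real (Set.pi A fun s => {decide (s ∉ B)}) = θ ^ (A \ B).card * (1 - θ) ^ B.card := by
  have := pr h
  rw [Measure.real, Bern, Measure.infinitePi_pi _ fun _ _ => .singleton _, ← Finset.prod_sdiff e, ENNReal.toReal_mul,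
    Finset.prod_congr rfl (g := fun _ => ENNReal.ofReal θ) fun s hs => by simp [(Finset.mem_sdiff.1 hs).2],
    Finset.prod_congr rfl (s₁ := B) (g := fun _ => ENNReal.ofReal (1 - θ)) fun s hs => by simp [hs]]
  simp [h.1, sub_nonneg.2 h.2]

lemma dual (h : θ ∈ Icc (0 : ℝ) 1) (μ : Measure (X d)) [IsProbabilityMeasure μ] (t : ℕ) :
    (fun A => ((P v θ)^[t] μ).real (cyl A)) = (K (Finset.univ.image v) θ ^ t) fun A => μ.real (cyl A) := by
  have := prB (d := d) h
  induction t with
  | zero => rfl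
  | succ t ih =>
    have := prP v h μ t
    rw [pow_succ', Module.End.mul_apply, ← ih, Function.iterate_succ_apply']
    generalize (P v θ)^[t] μ = ν at *
    funext A
    rw [P, map_measureReal_apply (ms v) (mc A), show _ ⁻¹' cyl A = ⋃ B ∈ A.powerset,
      cyl (B + Finset.univ.image v) ×ˢ Set.pi A fun s => {decide (s ∉ B)} from ?_, measureReal_biUnion_finset]
    · exact Finset.sum_congr rfl fun B hB => by rw [measureReal_prod_prod, pat h (Finset.mem_powerset.1 hB), mul_comm]
    · refine fun B hB C hC e => disjoint_left.2 fun z a b => e (Finset.ext fun s => ?_)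
      by_cases hs : s ∈ A
      · simpa using (a.2 s hs).symm.trans (b.2 s hs)
      · exact iff_of_false (fun e => hs (Finset.mem_powerset.1 hB e)) fun e => hs (Finset.mem_powerset.1 hC e)
    · exact fun B _ => (mc _).prod (.pi A.countable_toSet fun _ _ => trivial)
    · ext ⟨x, η⟩
      simp only [cyl, mem_preimage, Set.mem_pi, Finset.mem_coe, mem_singleton_iff, Bool.or_eq_true, decide_eq_true_eq,
        mem_iUnion, Set.mem_prod, Finset.mem_powerset, Finset.mem_add, Finset.mem_image, Finset.mem_univ, true_and]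
      constructor
      · refine fun e => ⟨A.filter (η · = false), Finset.filter_subset _ _, ?_, fun s hs => by simp [hs]⟩
        rintro _ ⟨s, hs, _, ⟨i, rfl⟩, rfl⟩
        rw [Finset.mem_filter] at hs
        exact (e s hs.1).resolve_left (by simp [hs.2]) i
      · rintro ⟨B, -, a, b⟩ s hs
        by_cases e : s ∈ B
        · exact .inr fun i => a _ ⟨s, e, _, ⟨i, rfl⟩, rfl⟩
        · exact .inl (by simp [b s hs, e])

lemma c0 : {y : X d | y 0 = true} = cyl {0} := by ext; simp [cyl]

lemma F_eq (h : θ ∈ Icc (0 : ℝ) 1) (T : ℕ) {p : ℝ} (hp : p ∈ Icc (0 : ℝ) 1) :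
    F v θ T p = gf (Finset.univ.image v) θ T p {0} := by
  have := prB (d := d) hp
  rw [F, c0, congrFun (dual v h _ T), gf]
  refine congrFun (congrArg _ (funext fun A => ?_)) _
  simpa [cyl] using pat hp (Finset.empty_subset A)

lemma D_eq (h : θ ∈ Icc (0 : ℝ) 1) (t : ℕ) (A : Finset (Fin d → ℤ)) :
    ((P v θ)^[t] (Measure.dirac fun _ => false)).real (cyl A) = gf (Finset.univ.image v) θ t 0 A := by
  rw [congrFun (dual v h _ t), gf]
  refine congrFun (congrArg _ (funext fun A => ?_)) _
  rcases A.eq_empty_or_nonempty with rfl | ⟨a, ha⟩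
  · simp [cyl]
  · rw [zero_pow (Finset.card_ne_zero_of_mem ha), Measure.real, Measure.dirac_apply' _ (mc A),
      indicator_of_notMem fun e => by simpa using e a ha]; rfl

lemma it (h : θ ∈ Icc (0 : ℝ) 1) (T k : ℕ) : (F v θ T)^[k] 0 ∈ Icc (0 : ℝ) 1 := by
  induction k with
  | zero => simp
  | succ k ih => rw [Function.iterate_succ_apply', F_eq v h T ih]; exact gf_mem h _ ih _

lemma toC (h : θ ∈ Icc (0 : ℝ) 1) {T : ℕ} (e : m (Finset.univ.image v) θ T {0} < 1) :
    Tendsto (fun k => (F v θ T)^[k] 0) atTop (𝓝 1) := by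
  have nn := (m_nice (V := Finset.univ.image v) h T).nn {0}
  refine tendsto_of_tendsto_of_tendsto_of_le_of_le (by simpa using
    (tendsto_pow_atTop_nhds_zero_of_lt_one nn e).const_sub 1) tendsto_const_nhds (fun k => ?_) fun k => (it v h T k).2
  induction k with
  | zero => simp
  | succ k ih =>
    simp only [Function.iterate_succ_apply', F_eq v h T (it v h T k), pow_succ] at ih ⊢
    nlinarith [gf_ge (V := Finset.univ.image v) h T (it v h T k).1 {0}]

lemma toE (h : θ ∈ Icc (0 : ℝ) 1) {T : ℕ} (e : m (Finset.univ.image v) θ T {0} < 1) (f : C(X d, ℝ)) :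
    Tendsto (fun t => ∫ y, f y ∂(P v θ)^[t] (Measure.dirac fun _ => false)) atTop (𝓝 (f fun _ => true)) := by
  refine Metric.tendsto_nhds.2 fun ε e0 => ?_
  have := f.continuous.continuousAt.eventually (Metric.ball_mem_nhds (f fun _ => true) (half_pos e0))
  rw [nhds_pi] at this
  obtain ⟨A, s, hs, hA⟩ := mem_pi'.1 this
  filter_upwards [(((m_lim h e).mul_const (A.card : ℝ)).const_mul (2 * ‖f‖)).eventually_lt_const
    (u := ε / 2) (by simpa using half_pos e0)] with t ht
  have := prP v h (Measure.dirac fun _ => false) t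
  have a := D_eq v h t A
  have b := gf_ge (V := Finset.univ.image v) h t le_rfl A
  have c := (m_nice (V := Finset.univ.image v) h t).le A
  generalize (P v θ)^[t] (Measure.dirac fun _ => false) = μ at *
  have i : Integrable f μ := (BoundedContinuousFunction.mkOfCompact f).integrable μ
  have i2 : Integrable ((cyl A)ᶜ.indicator fun _ => 2 * ‖f‖) μ := (integrable_const _).indicator (mc A).compl
  have : ‖∫ y, (f y - f fun _ => true) ∂μ‖ ≤ ∫ y, (ε / 2 + (cyl A)ᶜ.indicator (fun _ => 2 * ‖f‖) y) ∂μ := by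
    refine norm_integral_le_of_norm_le ((integrable_const _).add i2) (.of_forall fun y => ?_)
    by_cases hy : y ∈ cyl A
    · rw [indicator_of_notMem (by simpa), add_zero]
      exact le_of_lt (hA fun i hi => (hy i hi : y i = true) ▸ mem_of_mem_nhds (hs i))
    · rw [indicator_of_mem (mem_compl hy)]
      linarith [norm_sub_le (f y) (f fun _ => true), f.norm_coe_le_norm y, f.norm_coe_le_norm fun _ => true]
  rw [integral_sub i (integrable_const _), integral_add (integrable_const _) i2, integral_indicator (mc A).compl] at this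
  simp [probReal_compl_eq_one_sub (mc A)] at this
  rw [Real.dist_eq]
  have k := mul_le_mul_of_nonneg_left (show 1 - μ.real (cyl A) ≤ m (Finset.univ.image v) θ t {0} * A.card by linarith)
    (norm_nonneg f)
  linarith

theorem result : Tendsto (critT v) atTop (𝓝 (crit v)) := by
  have o : (1 : ℝ) ∈ Icc (0 : ℝ) 1 := by simp
  have m1 : m (Finset.univ.image v) 1 1 {0} < 1 := by
    rw [m_succ, ← Finset.insert_empty]
    simp only [K, LinearMap.coe_mk, AddHom.coe_mk]
    rw [Th_insert _ _ (Finset.notMem_empty _)]; simp [m]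
  have lo : ∀ᶠ T in atTop, crit v ≤ critT v T := by
    filter_upwards [(m_lim o m1).eventually_lt_const one_pos] with T hT
    refine le_csInf ⟨1, o, toC v o hT⟩ fun θ ⟨h, e⟩ => le_of_forall_gt_imp_ge_of_dense fun θ' l => ?_
    rcases le_total 1 θ' with g | g
    · exact le_trans (csInf_le ⟨0, fun _ h => h.1.1⟩ ⟨o, toE v o m1⟩) g
    have h' : θ' ∈ Icc (0 : ℝ) 1 := ⟨h.1.trans l.le, g⟩
    refine csInf_le ⟨0, fun _ h => h.1.1⟩ ⟨h', toE v h' (T := T) (not_le.1 fun a => ?_)⟩
    obtain ⟨q, q1, q2⟩ := fix h h' l a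
    refine q1.2.not_ge (le_of_tendsto' e fun k => ?_)
    induction k with
    | zero => exact q1.1
    | succ k ih =>
      rw [Function.iterate_succ_apply', F_eq v h T (it v h T k)]
      exact (gf_mono h T (it v h T k).1 ih _).trans q2
  refine tendsto_order.2 ⟨fun a ha => lo.mono fun T h => ha.trans_le h, fun a ha => ?_⟩
  obtain ⟨θ, ⟨h, e⟩, l⟩ := exists_lt_of_csInf_lt ⟨1, by exact ⟨o, toE v o m1⟩⟩ ha
  obtain ⟨θ', h', l', T, hT⟩ : ∃ θ' ∈ Icc (0 : ℝ) 1, θ' < a ∧ ∃ T, m (Finset.univ.image v) θ' T {0} < 1 := by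
    rcases lt_or_ge 1 a with g | g
    · exact ⟨1, o, g, 1, m1⟩
    have h' : (θ + a) / 2 ∈ Icc (0 : ℝ) 1 := ⟨by linarith [h.1], by linarith⟩
    refine ⟨_, h', by linarith, not_forall_not.1 fun c => ?_⟩
    obtain ⟨q, q1, q2⟩ := sharp h h' (by linarith) fun t => not_lt.1 (c t)
    have := e ⟨fun y => if y 0 then 1 else 0, (continuous_of_discreteTopology
      (f := fun b : Bool => if b then (1 : ℝ) else 0)).comp (continuous_apply 0)⟩
    refine q1.not_ge (le_of_tendsto' this fun t => le_trans (le_of_eq ?_) (q2 t))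
    rw [← D_eq v h, ← integral_indicator_one (mc _), ← c0]
    simp [indicator]
  filter_upwards [(m_lim h' hT).eventually_lt_const one_pos] with T hT
  exact lt_of_le_of_lt (csInf_le ⟨0, fun _ h => h.1.1⟩ ⟨h', toC v h' hT⟩) l'

end Pool.Agent.Results.MP_2e2eba_pr.Chaos
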